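import Mathlib
import Pool.Agent.X215.CombBan.Basic

/-!
A hereditary family `𝓕` of finite subsets of `ℕ` covering `ℕ` such that the combinatorial space
`X_𝓕` has the Schur property but `𝓕` does not satisfy the property `(S*)`.
-/

namespace Pool.Agent.Results.MP_8d662a_an.SchurNotSStar

open Pool.Agent.X215.CombBan Filter Topology

/-- The Schur property: weakly convergent sequences are norm convergent. -/
def Schur (X : Type) [NormedAddCommGroup X] [NormedSpace ℝ X] : Prop :=
  ∀ (u : ℕ → X) (x : X), (∀ f : X →L[ℝ] ℝ, Tendsto (fun n => f (u n)) atTop (𝓝 (f x))) →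
    Tendsto u atTop (𝓝 x)

/-- The family is hereditary. -/
def Hereditary (𝓕 : Cover ℕ) : Prop := ∀ F ∈ 𝓕.sets, ∀ G : Finset ℕ, G ⊆ F → G ∈ 𝓕.sets

/-- The closure of a hereditary family in `{0,1}^ℕ`: the sets all of whose finite subsets belong to
the family. -/
def clos (𝓕 : Cover ℕ) : Set (Set ℕ) := {A | ∀ G : Finset ℕ, (G : Set ℕ) ⊆ A → G ∈ 𝓕.sets}

/-- Property `(S*)`: for every sequence of pairwise disjoint members of the family there are
finitely many sets in the closure whose union contains infinitely many members of the sequence. -/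
def SStar (𝓕 : Cover ℕ) : Prop :=
  ∀ F : ℕ → Finset ℕ, (∀ n, F n ∈ 𝓕.sets) → (∀ m n, m ≠ n → Disjoint (F m) (F n)) →
    ∃ 𝒜 : Set (Set ℕ), 𝒜.Finite ∧ 𝒜 ⊆ clos 𝓕 ∧ {n : ℕ | (F n : Set ℕ) ⊆ ⋃₀ 𝒜}.Infinite

/-- Bounded functionals on `X_𝓕` from functionals on the finitely supported vectors. -/
theorem exists_functional {Ω : Type} (𝓕 : Cover Ω) (L : (Ω →₀ ℝ) →ₗ[ℝ] ℝ)
    (h : ∀ x, |L x| ≤ nrm 𝓕 x) : ∃ f : XSpace 𝓕 →L[ℝ] ℝ, ∀ x, f (toX 𝓕 x) = L x := by
  have hd : DenseRange (toX 𝓕) := UniformSpace.Completion.denseRange_coe (α := C00 𝓕)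
  refine ⟨L.extendOfNorm (toX 𝓕), fun x => ?_⟩
  refine LinearMap.extendOfNorm_eq hd ⟨1, fun x => ?_⟩ x
  rw [norm_toX, one_mul, Real.norm_eq_abs]
  exact h x

/-- The linear functional given by a bounded weight. -/
noncomputable def wfun {Ω : Type} (g : Ω → ℝ) : (Ω →₀ ℝ) →ₗ[ℝ] ℝ :=
  Finsupp.linearCombination ℝ g

theorem wfun_apply {Ω : Type} (g : Ω → ℝ) (x : Ω →₀ ℝ) {S : Finset Ω} (hS : x.support ⊆ S) :
    wfun g x = ∑ k ∈ S, x k * g k := by
  unfold wfun
  rw [Finsupp.linearCombination_apply, Finsupp.sum_of_support_subset x hS]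
  · rfl
  · intro k _
    exact zero_smul ℝ _

theorem wfun_le {Ω : Type} (𝓕 : Cover Ω) (g : Ω → ℝ) (hg : ∀ k, |g k| ≤ 1)
    (hG : ∀ G : Finset Ω, (∀ k ∈ G, g k ≠ 0) → G ∈ 𝓕.sets) (x : Ω →₀ ℝ) :
    |wfun g x| ≤ nrm 𝓕 x := by
  classical
  rw [wfun_apply g x (Finset.Subset.refl _)]
  have h1 : ∑ k ∈ x.support, x k * g k = ∑ k ∈ x.support with g k ≠ 0, x k * g k := by
    symm
    refine Finset.sum_subset (Finset.filter_subset _ _) fun k hk hk' => ?_
    have : g k = 0 := by
      by_contra h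
      exact hk' (Finset.mem_filter.2 ⟨hk, h⟩)
    rw [this, mul_zero]
  rw [h1]
  refine (Finset.abs_sum_le_sum_abs _ _).trans ?_
  refine le_trans (Finset.sum_le_sum fun k _ => ?_)
    (le_nrm 𝓕 x (hG (x.support.filter (fun k => g k ≠ 0)) fun k hk => (Finset.mem_filter.1 hk).2))
  rw [abs_mul]
  have := hg k
  have h2 := abs_nonneg (x k)
  nlinarith

/-- The countable set on which the family lives: the `(n+1)`-subsets of `[2n+2]`. -/
abbrev Om : Type := Σ n : ℕ, {S : Finset (Fin (2 * n + 2)) // S.card = n + 1}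

instance : Infinite Om := by
  have h : ∀ n : ℕ, ∃ S : Finset (Fin (2 * n + 2)), S.card = n + 1 := by
    intro n
    obtain ⟨S, -, hS⟩ := Finset.exists_subset_card_eq
      (s := (Finset.univ : Finset (Fin (2 * n + 2)))) (n := n + 1) (by simp; omega)
    exact ⟨S, hS⟩
  choose S hS using h
  refine Infinite.of_injective (fun n => (⟨n, ⟨S n, hS n⟩⟩ : Om)) fun m n h => ?_
  exact congrArg Sigma.fst h

/-- An enumeration of the ground set. -/
noncomputable def enum : ℕ ≃ Om := Classical.choice (nonempty_equiv_of_countable (α := ℕ) (β := Om))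

/-- The block to which `k` belongs. -/
noncomputable def blk (k : ℕ) : ℕ := (enum k).1

/-- `i` belongs to the set coded by `k`. -/
def Mem (i k : ℕ) : Prop := ∃ j ∈ (enum k).2.1, (j : ℕ) = i

/-- The sets of product type: in each block all coded sets have a common point. -/
def Prod (A : Set ℕ) : Prop := ∀ n, ∃ i < 2 * n + 2, ∀ k ∈ A, blk k = n → Mem i k

/-- The block as a finite set. -/
noncomputable def block (n : ℕ) : Finset ℕ :=
  (Finset.univ : Finset {S : Finset (Fin (2 * n + 2)) // S.card = n + 1}).map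
    ⟨fun S => enum.symm ⟨n, S⟩, fun S T h => by
      have h1 := enum.symm.injective h
      simpa using h1⟩

theorem mem_block {n k : ℕ} : k ∈ block n ↔ blk k = n := by
  unfold block
  rw [Finset.mem_map]
  constructor
  · rintro ⟨S, -, rfl⟩
    simp [blk]
  · intro h
    subst h
    refine ⟨(enum k).2, Finset.mem_univ _, ?_⟩
    show enum.symm ⟨blk k, (enum k).2⟩ = k
    rw [Equiv.symm_apply_eq]
    rfl

/-- The family. -/
noncomputable def fam : Cover ℕ where
  sets := {F | (∃ n, ∀ k ∈ F, blk k = n) ∨ Prod (F : Set ℕ)}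
  covers := fun k => ⟨{k}, Or.inl ⟨blk k, fun j hj => by rw [Finset.mem_singleton.1 hj]⟩,
    Finset.mem_singleton_self k⟩

theorem Prod.mono {A B : Set ℕ} (h : Prod B) (hAB : A ⊆ B) : Prod A := by
  intro n
  obtain ⟨i, hi, h'⟩ := h n
  exact ⟨i, hi, fun k hk => h' k (hAB hk)⟩

theorem hereditary_fam : Hereditary fam := by
  intro F hF G hG
  rcases hF with ⟨n, hn⟩ | h
  · exact Or.inl ⟨n, fun k hk => hn k (hG hk)⟩
  · exact Or.inr (h.mono hG)

/-- Sum over the members of a block set: one of the points carries half of the mass. -/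
theorem half (n : ℕ) (F : Finset ℕ) (hF : ∀ k ∈ F, blk k = n) (a : ℕ → ℝ) :
    ∃ G ⊆ F, Prod (G : Set ℕ) ∧ (∑ k ∈ F, a k) / 2 ≤ ∑ k ∈ G, a k := by
  classical
  -- double counting
  have hcard : ∀ k ∈ F, ((Finset.range (2 * n + 2)).filter (fun i => Mem i k)).card = n + 1 := by
    intro k hk
    have h1 := hF k hk
    subst h1
    have h2 : (Finset.range (2 * blk k + 2)).filter (fun i => Mem i k) =
        (enum k).2.1.map Fin.valEmbedding := by
      ext i
      rw [Finset.mem_filter, Finset.mem_range, Finset.mem_map]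
      constructor
      · rintro ⟨-, j, hj, hji⟩
        exact ⟨j, hj, hji⟩
      · rintro ⟨j, hj, hji⟩
        refine ⟨?_, j, hj, hji⟩
        rw [← hji]
        exact j.2
    rw [h2, Finset.card_map]
    exact (enum k).2.2
  have hsum : ∑ i ∈ Finset.range (2 * n + 2), ∑ k ∈ F.filter (fun k => Mem i k), a k =
      (n + 1 : ℕ) * ∑ k ∈ F, a k := by
    have h1 : ∀ i ∈ Finset.range (2 * n + 2), ∑ k ∈ F.filter (fun k => Mem i k), a k =
        ∑ k ∈ F, if Mem i k then a k else 0 := fun i _ => Finset.sum_filter _ _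
    rw [Finset.sum_congr rfl h1, Finset.sum_comm, Finset.mul_sum]
    refine Finset.sum_congr rfl fun k hk => ?_
    rw [← Finset.sum_filter, Finset.sum_const, hcard k hk, nsmul_eq_mul]
  obtain ⟨i, hi, hle⟩ : ∃ i ∈ Finset.range (2 * n + 2),
      (∑ k ∈ F, a k) / 2 ≤ ∑ k ∈ F.filter (fun k => Mem i k), a k := by
    by_contra hcon
    push Not at hcon
    have h1 := Finset.sum_lt_sum_of_nonempty (s := Finset.range (2 * n + 2))
      ⟨0, Finset.mem_range.2 (by omega)⟩ hcon
    rw [hsum, Finset.sum_const, Finset.card_range, nsmul_eq_mul] at h1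
    push_cast at h1
    nlinarith
  refine ⟨F.filter (fun k => Mem i k), Finset.filter_subset _ _, fun m => ?_, hle⟩
  by_cases hm : m = n
  · subst hm
    exact ⟨i, Finset.mem_range.1 hi, fun k hk _ => (Finset.mem_filter.1 hk).2⟩
  · refine ⟨0, by omega, fun k hk hkm => ?_⟩
    exact absurd ((hkm.symm.trans (hF k (Finset.mem_filter.1 hk).1))) hm

theorem not_sstar : ¬ SStar fam := by
  classical
  intro h
  obtain ⟨𝒜, hfin, hcl, hinf⟩ := h block (fun n => Or.inl ⟨n, fun k hk => mem_block.1 hk⟩)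
    (fun m n hmn => Finset.disjoint_left.2 fun k hk hk' => hmn
      ((mem_block.1 hk).symm.trans (mem_block.1 hk')))
  -- the bad indices
  have hbad : ∀ A ∈ 𝒜, {n : ℕ | ¬ ∃ i < 2 * n + 2, ∀ k ∈ A, blk k = n → Mem i k}.Subsingleton := by
    intro A hA n hn m hm
    by_contra hnm
    have h1 : ((block n ∪ block m).filter (fun k => k ∈ A)) ∈ fam.sets :=
      hcl hA _ fun k hk => (Finset.mem_filter.1 (Finset.mem_coe.1 hk)).2
    rcases h1 with ⟨p, hp⟩ | hp
    · by_cases hpn : p = n
      · refine hm ⟨0, by omega, fun k hk hkm => ?_⟩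
        have := hp k (Finset.mem_filter.2 ⟨Finset.mem_union_right _ (mem_block.2 hkm), hk⟩)
        exact absurd (hpn.symm.trans (this.symm.trans hkm)) hnm
      · refine hn ⟨0, by omega, fun k hk hkn => ?_⟩
        have := hp k (Finset.mem_filter.2 ⟨Finset.mem_union_left _ (mem_block.2 hkn), hk⟩)
        exact absurd (this.symm.trans hkn) hpn
    · obtain ⟨i, hi, hi'⟩ := hp n
      refine hn ⟨i, hi, fun k hk hkn => hi' k ?_ hkn⟩
      exact Finset.mem_coe.2 (Finset.mem_filter.2 ⟨Finset.mem_union_left _ (mem_block.2 hkn), hk⟩)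
  have hfinbad : (⋃ A ∈ 𝒜, {n : ℕ | ¬ ∃ i < 2 * n + 2, ∀ k ∈ A, blk k = n → Mem i k}).Finite :=
    hfin.biUnion fun A hA => (hbad A hA).finite
  have hinf2 := (hinf.sdiff hfinbad).sdiff (Set.finite_lt_nat (hfin.toFinset.card))
  obtain ⟨n, ⟨hn1, hn2⟩, hn3⟩ := hinf2.nonempty
  have hn4 : hfin.toFinset.card ≤ n := not_lt.1 hn3
  have hn5 : ∀ A ∈ 𝒜, ∃ i < 2 * n + 2, ∀ k ∈ A, blk k = n → Mem i k := by
    intro A hA
    by_contra hcon
    exact hn2 (Set.mem_biUnion hA hcon)
  choose! i hi hi' using hn5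
  -- a set avoiding the points
  have hcard : n + 1 ≤ ((Finset.univ : Finset (Fin (2 * n + 2))).filter
      (fun j : Fin (2 * n + 2) => (j : ℕ) ∉ hfin.toFinset.image i)).card := by
    have h1 := Finset.card_filter_add_card_filter_not (s := (Finset.univ : Finset (Fin (2 * n + 2))))
      (fun j : Fin (2 * n + 2) => (j : ℕ) ∈ hfin.toFinset.image i)
    rw [Finset.card_univ, Fintype.card_fin] at h1
    have h2 : ((Finset.univ : Finset (Fin (2 * n + 2))).filter
        (fun j : Fin (2 * n + 2) => (j : ℕ) ∈ hfin.toFinset.image i)).card ≤ (hfin.toFinset.image i).card := by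
      refine Finset.card_le_card_of_injOn (fun j : Fin (2 * n + 2) => (j : ℕ)) (fun j hj => ?_)
        (fun j _ j' _ h => Fin.ext h)
      exact (Finset.mem_filter.1 (Finset.mem_coe.1 hj)).2
    have h3 := Finset.card_image_le (s := hfin.toFinset) (f := i)
    omega
  obtain ⟨S, hS, hScard⟩ := Finset.exists_subset_card_eq hcard
  have hk : blk (enum.symm ⟨n, ⟨S, hScard⟩⟩) = n := by simp [blk]
  have hk2 := hn1 (Finset.mem_coe.2 (mem_block.2 hk))
  obtain ⟨A, hA, hkA⟩ := hk2
  obtain ⟨j, hj, hji⟩ := hi' A hA _ hkA hk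
  have h5 : ∀ (k : ℕ) (x : Om), enum k = x → ∀ j ∈ (enum k).2.1, ∃ j' ∈ x.2.1, (j' : ℕ) = (j : ℕ) := by
    rintro k x rfl j hj
    exact ⟨j, hj, rfl⟩
  obtain ⟨j', hj', hjj'⟩ := h5 _ ⟨n, ⟨S, hScard⟩⟩ (enum.apply_symm_apply _) j hj
  have h6 := (Finset.mem_filter.1 (hS hj')).2
  refine h6 (Finset.mem_image.2 ⟨A, hfin.mem_toFinset.2 hA, ?_⟩)
  rw [hjj', hji]


/-- One step of the gliding hump. -/
theorem step (w : ℕ → (ℕ →₀ ℝ)) {c : ℝ} (hc : 0 < c) (hw : ∀ n, c ≤ nrm fam (w n))
    (hco : ∀ k, Tendsto (fun n => w n k) atTop (𝓝 0)) (M : ℕ) :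
    ∃ n, M ≤ n ∧ ∃ M', M < M' ∧ ∃ A : Finset ℕ, (∀ k ∈ A, M < blk k ∧ blk k ≤ M') ∧
      Prod (A : Set ℕ) ∧ c / 8 ≤ ∑ k ∈ A, |w n k| ∧
      (∀ B : Finset ℕ, (∀ k ∈ B, blk k ≤ M) → ∑ k ∈ B, |w n k| < c / 16) ∧
      ∀ k, w n k ≠ 0 → blk k ≤ M' := by
  classical
  let S : Finset ℕ := (Finset.range (M + 1)).biUnion block
  have hS : ∀ k, k ∈ S ↔ blk k ≤ M := by
    intro k
    rw [Finset.mem_biUnion]
    constructor
    · rintro ⟨n, hn, hk⟩
      rw [mem_block.1 hk]
      have := Finset.mem_range.1 hn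
      omega
    · intro h
      exact ⟨blk k, Finset.mem_range.2 (by omega), mem_block.2 rfl⟩
  have h1 : Tendsto (fun n => ∑ k ∈ S, |w n k|) atTop (𝓝 (∑ k ∈ S, (0 : ℝ))) :=
    tendsto_finsetSum _ fun k _ => by simpa using (hco k).abs
  rw [Finset.sum_const_zero] at h1
  obtain ⟨n, hn, hnM⟩ := ((h1.eventually_lt_const (by positivity : (0 : ℝ) < c / 16)).and
    (eventually_ge_atTop M)).exists
  have hsmall : ∀ B : Finset ℕ, (∀ k ∈ B, blk k ≤ M) → ∑ k ∈ B, |w n k| < c / 16 := by
    intro B hB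
    refine lt_of_le_of_lt (Finset.sum_le_sum_of_subset_of_nonneg (fun k hk => (hS k).2 (hB k hk))
      fun _ _ _ => abs_nonneg _) hn
  obtain ⟨F, hF, hFc⟩ : ∃ F ∈ fam.sets, c / 2 ≤ ∑ k ∈ F, |w n k| := by
    by_contra hcon
    push Not at hcon
    have h2 := nrm_le fam (w n) (C := c / 2) (by positivity) fun F hF => (hcon F hF).le
    have h3 := hw n
    linarith
  -- the part beyond `M`
  have hF' : (F.filter fun k => M < blk k) ∈ fam.sets :=
    hereditary_fam F hF _ (Finset.filter_subset _ _)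
  have hF'c : c / 4 ≤ ∑ k ∈ F.filter (fun k => M < blk k), |w n k| := by
    have h2 := Finset.sum_filter_add_sum_filter_not F (fun k => M < blk k) fun k => |w n k|
    have h3 := hsmall (F.filter fun k => ¬ M < blk k) fun k hk =>
      not_lt.1 (Finset.mem_filter.1 hk).2
    linarith
  obtain ⟨A, hAF, hA, hAc⟩ : ∃ A ⊆ F.filter (fun k => M < blk k), Prod (A : Set ℕ) ∧
      c / 8 ≤ ∑ k ∈ A, |w n k| := by
    rcases hF' with ⟨m, hm⟩ | h
    · obtain ⟨G, hG, hGP, hGc⟩ := half m _ hm fun k => |w n k|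
      exact ⟨G, hG, hGP, by linarith⟩
    · exact ⟨_, Finset.Subset.refl _, h, by linarith⟩
  refine ⟨n, hnM, max (M + 1) ((A ∪ (w n).support).sup blk), by
    exact lt_of_lt_of_le (Nat.lt_succ_self M) (le_max_left _ _), A, fun k hk => ?_, hA, hAc,
    hsmall, fun k hk => ?_⟩
  · refine ⟨(Finset.mem_filter.1 (hAF hk)).2, ?_⟩
    exact (Finset.le_sup (f := blk) (Finset.mem_union_left _ hk)).trans (le_max_right _ _)
  · exact (Finset.le_sup (f := blk) (Finset.mem_union_right _ (Finsupp.mem_support_iff.2 hk))).trans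
      (le_max_right _ _)

/-- There is no seminormalized weakly null sequence of finitely supported vectors. -/
theorem no_weakly_null (w : ℕ → (ℕ →₀ ℝ)) {c : ℝ} (hc : 0 < c) (hw : ∀ n, c ≤ nrm fam (w n))
    (hnull : ∀ g : ℕ → ℝ, (∀ x, |wfun g x| ≤ nrm fam x) →
      Tendsto (fun n => wfun g (w n)) atTop (𝓝 0)) : False := by
  classical
  have hco : ∀ k, Tendsto (fun n => w n k) atTop (𝓝 0) := by
    intro k
    have h0 : ∀ x : ℕ →₀ ℝ, wfun (fun j => if j = k then (1 : ℝ) else 0) x = x k := by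
      intro x
      rw [wfun_apply _ x (S := insert k x.support) (Finset.subset_insert _ _)]
      simp
    have h1 := hnull (fun j => if j = k then (1 : ℝ) else 0) fun x => by
      rw [h0]
      exact abs_le_nrm fam x k
    simpa only [h0] using h1
  choose n hn M' hM' A hAM hAP hAc hsm hsupp using step w hc hw hco
  -- the sequence of thresholds
  let m : ℕ → ℕ := fun j => Nat.rec 0 (fun _ a => M' a) j
  have hm0 : ∀ j, m (j + 1) = M' (m j) := fun j => rfl
  have hmlt : StrictMono m := strictMono_nat_of_lt_succ fun j => by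
    rw [hm0]
    exact hM' _
  have hmge : ∀ j, j ≤ m j := hmlt.id_le
  -- the sets `A (m j)` are in disjoint ranges of blocks
  have hrange : ∀ j, ∀ k ∈ A (m j), m j < blk k ∧ blk k ≤ m (j + 1) := fun j k hk => hAM (m j) k hk
  have huniq : ∀ i j k, k ∈ A (m i) → k ∈ A (m j) → i = j := by
    intro i j k hi hj
    have h1 := hrange i k hi
    have h2 := hrange j k hj
    have h3 : m i < m (j + 1) := lt_of_lt_of_le h1.1 h2.2
    have h4 : m j < m (i + 1) := lt_of_lt_of_le h2.1 h1.2
    have h5 := (hmlt.lt_iff_lt (a := i) (b := j + 1)).1 h3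
    have h6 := (hmlt.lt_iff_lt (a := j) (b := i + 1)).1 h4
    omega
  have huniqb : ∀ i j k k', k ∈ A (m i) → k' ∈ A (m j) → blk k = blk k' → i = j := by
    intro i j k k' hi hj hkk
    have h1 := hrange i k hi
    have h2 := hrange j k' hj
    rw [hkk] at h1
    have h3 : m i < m (j + 1) := lt_of_lt_of_le h1.1 h2.2
    have h4 : m j < m (i + 1) := lt_of_lt_of_le h2.1 h1.2
    have h5 := (hmlt.lt_iff_lt (a := i) (b := j + 1)).1 h3
    have h6 := (hmlt.lt_iff_lt (a := j) (b := i + 1)).1 h4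
    omega
  -- the functional
  let g : ℕ → ℝ := fun k => if h : ∃ j, k ∈ A (m j) then
    (SignType.sign (w (n (m h.choose)) k) : ℝ) else 0
  have hg : ∀ j, ∀ k ∈ A (m j), g k = (SignType.sign (w (n (m j)) k) : ℝ) := by
    intro j k hk
    have h : ∃ j, k ∈ A (m j) := ⟨j, hk⟩
    have h1 : g k = (SignType.sign (w (n (m h.choose)) k) : ℝ) := dif_pos h
    rw [h1, huniq _ j k h.choose_spec hk]
  have hg0 : ∀ k, g k ≠ 0 → ∃ j, k ∈ A (m j) := by
    intro k hk
    by_contra h
    exact hk (dif_neg h)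
  have hg1 : ∀ k, |g k| ≤ 1 := by
    intro k
    by_cases h : ∃ j, k ∈ A (m j)
    · obtain ⟨j, hj⟩ := h
      rw [hg j k hj]
      rcases lt_trichotomy (w (n (m j)) k) 0 with h | h | h
      · simp [sign_neg h]
      · simp [h]
      · simp [sign_pos h]
    · have h1 : g k = 0 := dif_neg h
      rw [h1, abs_zero]
      exact zero_le_one
  have hprod : Prod {k | ∃ j, k ∈ A (m j)} := by
    intro p
    by_cases hp : ∃ j, ∃ k ∈ A (m j), blk k = p
    · obtain ⟨j, k, hk, hkp⟩ := hp
      obtain ⟨i, hi, hi'⟩ := hAP (m j) p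
      refine ⟨i, hi, ?_⟩
      rintro k' ⟨j', hk'⟩ hk'p
      have h1 := huniqb j j' k k' hk hk' (hkp.trans hk'p.symm)
      subst h1
      exact hi' k' hk' hk'p
    · refine ⟨0, by omega, ?_⟩
      rintro k' ⟨j', hk'⟩ hk'p
      exact absurd ⟨j', k', hk', hk'p⟩ hp
  have hgle : ∀ x, |wfun g x| ≤ nrm fam x := wfun_le fam g hg1 fun G hG =>
    Or.inr (hprod.mono fun k hk => hg0 k (hG k hk))
  have hlim := hnull g hgle
  -- the lower bound
  have hlow : ∀ j, c / 16 ≤ wfun g (w (n (m j))) := by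
    intro j
    rw [wfun_apply g (w (n (m j))) (S := (w (n (m j))).support ∪ A (m j)) Finset.subset_union_left]
    rw [← Finset.sum_filter_add_sum_filter_not _ (fun k => k ∈ A (m j))]
    have h1 : ((w (n (m j))).support ∪ A (m j)).filter (fun k => k ∈ A (m j)) = A (m j) := by
      ext k
      rw [Finset.mem_filter, Finset.mem_union]
      exact ⟨fun h => h.2, fun h => ⟨Or.inr h, h⟩⟩
    rw [h1]
    have h2 : ∑ k ∈ A (m j), w (n (m j)) k * g k = ∑ k ∈ A (m j), |w (n (m j)) k| :=
      Finset.sum_congr rfl fun k hk => by rw [hg j k hk, self_mul_sign]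
    have h3 : |∑ k ∈ ((w (n (m j))).support ∪ A (m j)).filter (fun k => ¬ k ∈ A (m j)),
        w (n (m j)) k * g k| ≤ c / 16 := by
      have h4 : ∑ k ∈ ((w (n (m j))).support ∪ A (m j)).filter (fun k => ¬ k ∈ A (m j)),
          w (n (m j)) k * g k = ∑ k ∈ (((w (n (m j))).support ∪ A (m j)).filter
            (fun k => ¬ k ∈ A (m j))).filter (fun k => g k ≠ 0), w (n (m j)) k * g k := by
        symm
        refine Finset.sum_subset (Finset.filter_subset _ _) fun k hk hk' => ?_
        have : g k = 0 := by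
          by_contra h
          exact hk' (Finset.mem_filter.2 ⟨hk, h⟩)
        rw [this, mul_zero]
      rw [h4]
      refine (Finset.abs_sum_le_sum_abs _ _).trans ?_
      refine le_trans (Finset.sum_le_sum fun k _ => ?_) (hsm (m j)
        ((((w (n (m j))).support ∪ A (m j)).filter
            (fun k => ¬ k ∈ A (m j))).filter (fun k => g k ≠ 0)) fun k hk => ?_).le
      · rw [abs_mul]
        have := hg1 k
        have h2 := abs_nonneg (w (n (m j)) k)
        nlinarith
      · obtain ⟨hk1, hk2⟩ := Finset.mem_filter.1 hk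
        obtain ⟨hk3, hk4⟩ := Finset.mem_filter.1 hk1
        obtain ⟨i, hi⟩ := hg0 k hk2
        have hk5 : k ∈ (w (n (m j))).support := by
          rcases Finset.mem_union.1 hk3 with h | h
          · exact h
          · exact absurd h hk4
        have hk6 : blk k ≤ m (j + 1) := hsupp (m j) k (Finsupp.mem_support_iff.1 hk5)
        have hk7 := hrange i k hi
        have hk8 : i ≠ j := by
          rintro rfl
          exact hk4 hi
        have hk9 : m i < m (j + 1) := lt_of_lt_of_le hk7.1 hk6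
        have hk10 := (hmlt.lt_iff_lt (a := i) (b := j + 1)).1 hk9
        have hk11 : i + 1 ≤ j := by omega
        exact hk7.2.trans (hmlt.monotone hk11)
    have h5 := hAc (m j)
    have h6 := (abs_le.1 h3).1
    rw [h2]
    linarith
  obtain ⟨N, hN⟩ := (hlim.eventually_lt_const (by positivity : (0 : ℝ) < c / 16)).exists_forall_of_atTop
  have h1 := hN (n (m N)) ((hmge N).trans (hn (m N)))
  exact absurd (hlow N) (not_le.2 h1)

theorem schur_fam : Schur (XSpace fam) := by
  intro u x hu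
  by_contra hcon
  -- a subsequence bounded away from the limit
  rw [Metric.tendsto_atTop] at hcon
  push Not at hcon
  obtain ⟨c, hc, hcn⟩ := hcon
  choose φ hφ hφc using hcn
  have happ : ∀ n : ℕ, ∃ w : ℕ →₀ ℝ, ‖(u (φ n) - x) - toX fam w‖ < min (c / 2) (1 / ((n : ℝ) + 1)) :=
    fun n => exists_toX fam _ (lt_min (by positivity) (by positivity))
  choose w hw using happ
  refine no_weakly_null w (c := c / 2) (by positivity) (fun n => ?_) fun g hg => ?_
  · have h1 := hφc n
    rw [dist_eq_norm] at h1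
    have h2 := (hw n).trans_le (min_le_left _ _)
    have h3 : ‖u (φ n) - x‖ ≤ ‖(u (φ n) - x) - toX fam (w n)‖ + ‖toX fam (w n)‖ := by
      have := norm_add_le ((u (φ n) - x) - toX fam (w n)) (toX fam (w n))
      rwa [sub_add_cancel] at this
    rw [norm_toX] at h3
    linarith
  · obtain ⟨f, hf⟩ := exists_functional fam (wfun g) hg
    have h1 : Tendsto (fun n => f (u (φ n)) - f x) atTop (𝓝 0) := by
      have h2 : Tendsto φ atTop atTop := tendsto_atTop_mono hφ tendsto_id
      have h3 := ((hu f).comp h2).sub_const (f x)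
      rw [sub_self] at h3
      exact h3
    have h2 : Tendsto (fun n => f ((u (φ n) - x) - toX fam (w n))) atTop (𝓝 0) := by
      have h3 : Tendsto (fun n => (u (φ n) - x) - toX fam (w n)) atTop (𝓝 0) := by
        refine squeeze_zero_norm (fun n => ((hw n).trans_le (min_le_right _ _)).le) ?_
        exact tendsto_one_div_add_atTop_nhds_zero_nat
      have h4 := (f.continuous.tendsto 0).comp h3
      rw [map_zero] at h4
      exact h4
    have h3 := h1.sub h2
    rw [sub_zero] at h3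
    refine h3.congr fun n => ?_
    rw [← hf, map_sub, map_sub]
    ring

/-- **Main theorem.** There is a hereditary family of finite subsets of `ℕ` covering `ℕ` for which
the combinatorial space has the Schur property, although the family fails `(S*)`. -/
theorem result : ∃ 𝓕 : Cover ℕ, Hereditary 𝓕 ∧ Schur (XSpace 𝓕) ∧ ¬ SStar 𝓕 :=
  ⟨fam, hereditary_fam, schur_fam, not_sstar⟩

end Pool.Agent.Results.MP_8d662a_an.SchurNotSStar
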